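import Mathlib
import Pool.Agent.JR.Main
import Pool.Agent.JR.Fin
import Pool.Agent.JR.AllRanks
import Pool.Agent.Furedi.Final

set_option autoImplicit false

namespace Pool.Agent.Results.MP_4c2c9c_co.AllLinearAsymptotic

/-- Füredi's weighted matching inequality holds asymptotically for all linear hypergraphs, with
edges of any sizes: for every `ε > 0` there is `D₀` such that every finite linear hypergraph whose
vertices have at most `D` neighbours in the 2-section, where `D ≥ D₀`, has for all nonnegative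
weights a matching of weight at least `(1 - ε) w(H) / (D + 1)`. -/
theorem result (ε : ℝ) (hε : 0 < ε) : ∃ D₀ : ℕ,
    ∀ (V : Type) [Fintype V] [DecidableEq V] (H : Finset (Finset V)) (w : Finset V → ℝ) (D : ℕ),
      (∀ E ∈ H, ∀ F ∈ H, E ≠ F → (E ∩ F).card ≤ 1) →
      (∀ E ∈ H, 0 ≤ w E) →
      D₀ ≤ D →
      (∀ v : V, {u : V | u ≠ v ∧ ∃ E ∈ H, u ∈ E ∧ v ∈ E}.ncard ≤ D) →
      ∃ M : Finset (Finset V), M ⊆ H ∧
        (∀ E ∈ M, ∀ F ∈ M, E ≠ F → Disjoint E F) ∧
        (1 - ε) * (∑ E ∈ H, w E) / ((D : ℝ) + 1) ≤ ∑ E ∈ M, w E := by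
  obtain ⟨D₀, hD₀⟩ := Pool.Agent.JR.ar_all
    (Pool.Agent.JR.thm_main Pool.Agent.JR.fin_B0 Pool.Agent.JR.fin_B1) ε hε
  refine ⟨D₀, ?_⟩
  intro V _ _ H w D hlin hw hD hdeg
  exact hD₀ V H D hD hlin (fun v => Pool.Agent.Furedi.deg_le hlin (hdeg v)) w hw

end Pool.Agent.Results.MP_4c2c9c_co.AllLinearAsymptotic
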