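import Mathlib
import Pool.Agent.Furedi2.Ext2

set_option autoImplicit false

namespace Pool.Agent.Results.MP_4c2c9c_co.TwoEdgeCondition

/-- Füredi's weighted matching inequality for linear hypergraphs. Write `b(x)` for the number of
edges of size at least three at `x`.
First part: the bound `w(H) / N` for every real `N ≥ D + 1` such that, for every vertex `x`, the sum
of `1 / (N - b(x) - b(y))` over the edges `{x, y}` of size two at `x` is at most `1`. (With
`N = D + 1` this is the inequality of Q1; the condition is empty when there are no edges of size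
two.)
Second part (a special case of the first): the bound `w(H) / N` for every natural number
`N ≥ D + 1` such that, for every edge `{x, y}` of size two, the number of edges of size at least two
at `x` plus `b(y)` is at most `N`.
Third part (a special case of the second): the bound `w(H) / (D + max 1 ⌊(D - 1) / 2⌋)` for all
linear hypergraphs; for `D ≤ 4` this is the inequality of Q1. -/
theorem result :
    ∀ (V : Type) [Fintype V] [DecidableEq V] (H : Finset (Finset V)) (w : Finset V → ℝ) (D : ℕ),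
      (∀ E ∈ H, ∀ F ∈ H, E ≠ F → (E ∩ F).card ≤ 1) →
      (∀ E ∈ H, 0 ≤ w E) →
      (∀ v : V, {u : V | u ≠ v ∧ ∃ E ∈ H, u ∈ E ∧ v ∈ E}.ncard ≤ D) →
      (∀ N : ℝ, (D : ℝ) + 1 ≤ N →
        (∀ x : V, ∑ e ∈ H.filter (fun e => e.card = 2 ∧ x ∈ e),
          (N - ∑ z ∈ e, ((H.filter fun E => z ∈ E ∧ 3 ≤ E.card).card : ℝ))⁻¹ ≤ 1) →
        ∃ M : Finset (Finset V), M ⊆ H ∧
          (∀ E ∈ M, ∀ F ∈ M, E ≠ F → Disjoint E F) ∧
          (∑ E ∈ H, w E) / N ≤ ∑ E ∈ M, w E) ∧
      (∀ N : ℕ, D + 1 ≤ N →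
        (∀ x y : V, x ≠ y → {x, y} ∈ H →
          (H.filter fun E => x ∈ E ∧ 2 ≤ E.card).card +
            (H.filter fun E => y ∈ E ∧ 3 ≤ E.card).card ≤ N) →
        ∃ M : Finset (Finset V), M ⊆ H ∧
          (∀ E ∈ M, ∀ F ∈ M, E ≠ F → Disjoint E F) ∧
          (∑ E ∈ H, w E) / (N : ℝ) ≤ ∑ E ∈ M, w E) ∧
      (∃ M : Finset (Finset V), M ⊆ H ∧
        (∀ E ∈ M, ∀ F ∈ M, E ≠ F → Disjoint E F) ∧
        (∑ E ∈ H, w E) / ((D + max 1 ((D - 1) / 2) : ℕ) : ℝ) ≤ ∑ E ∈ M, w E) := by
  intro V _ _ H w D hlin hw hD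
  exact ⟨fun N hN hc => Pool.Agent.Furedi2.furedi_general H w D N hlin hw hD hN hc,
    fun N hN hc => Pool.Agent.Furedi2.furedi_cond H w D N hlin hw hD hN hc,
    Pool.Agent.Furedi2.furedi_all H w D hlin hw hD⟩

end Pool.Agent.Results.MP_4c2c9c_co.TwoEdgeCondition
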