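import Mathlib
import Pool.Agent.UQ.Singles
import Pool.Agent.UQ.TwoSec

set_option autoImplicit false

namespace Pool.Agent.Results.MP_4c2c9c_co.Unweighted

/-- The unweighted case of Q1: every finite linear hypergraph `H` whose 2-section has maximum
degree at most `D` has a matching with at least `|H| / (D + 1)` edges. No restriction on the sizes
of the edges. -/
theorem result :
    ∀ (V : Type) [Fintype V] [DecidableEq V] (H : Finset (Finset V)) (D : ℕ),
      (∀ E ∈ H, ∀ F ∈ H, E ≠ F → (E ∩ F).card ≤ 1) →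
      (∀ v : V, {u : V | u ≠ v ∧ ∃ E ∈ H, u ∈ E ∧ v ∈ E}.ncard ≤ D) →
      ∃ M : Finset (Finset V), M ⊆ H ∧
        (∀ E ∈ M, ∀ F ∈ M, E ≠ F → Disjoint E F) ∧
        (H.card : ℝ) / ((D : ℝ) + 1) ≤ M.card := by
  intro V _ _ H D hlin hD
  obtain ⟨M, hM, hdis, hc⟩ := Pool.Agent.UQ.main1 H D
    (fun v => Pool.Agent.UQ.twosec H D hlin v (hD v)) hlin
  refine ⟨M, hM, hdis, ?_⟩
  rw [div_le_iff₀ (by positivity)]
  have h : (H.card : ℝ) ≤ (((D + 1) * M.card : ℕ) : ℝ) := by exact_mod_cast hc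
  push_cast at h
  linarith

end Pool.Agent.Results.MP_4c2c9c_co.Unweighted
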